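import Pool.Agent.Y157.PS.Stm

/-!
# Project PS (helper157), task EMB: embedding of `M` in the field of functions on a disc
-/

set_option autoImplicit false
set_option linter.all false

open Polynomial FF

namespace Pool.Agent.Y275.PS

open Pool.Agent.Y157.PS

/-- `κ(x)` embeds in every field with a transcendental element -/
theorem exists_hom {κ R E : Type} [Field κ] [Field R] [Field E] [Algebra κ R] [Algebra κ E] {x : R}
    (hx : RatF κ x) {X : E} (hX : Transcendental κ X) : ∃ i : R →ₐ[κ] E, i x = X := by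
  let e1 := RatFunc.algEquivOfTranscendental x hx.trans
  let e2 : IntermediateField.adjoin κ {x} ≃ₐ[κ] R :=
    (IntermediateField.equivOfEq hx.gen).trans IntermediateField.topEquiv
  let e3 := RatFunc.algEquivOfTranscendental X hX
  have he2 : e2.symm x = IntermediateField.AdjoinSimple.gen κ x := by
    rw [AlgEquiv.symm_apply_eq]
    rfl
  refine ⟨((IntermediateField.val (IntermediateField.adjoin κ {X})).comp
    e3.toAlgHom).comp (e1.symm.toAlgHom.comp e2.symm.toAlgHom), ?_⟩
  change ((e3 (e1.symm (e2.symm x)) : IntermediateField.adjoin κ {X}) : E) = X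
  rw [he2]
  have h1 : e1.symm (IntermediateField.AdjoinSimple.gen κ x) = RatFunc.X :=
    RatFunc.algEquivOfTranscendental_symm_gen x hx.trans
  rw [h1]
  exact RatFunc.algEquivOfTranscendental_X X hX

theorem ord_zero_of {k K : Type} [Field k] [Field K] [Algebra k K] (P : Place k K) {f : K}
    (hf : f ≠ 0) (h1 : f ∈ P.O) (h2 : f⁻¹ ∈ P.O) : P.ord f = 0 := by
  rw [Place.mem_O, P.reg_iff hf] at h1
  rw [Place.mem_O, P.reg_iff (inv_ne_zero hf), P.ord_inv] at h2
  omega

theorem mem_of_ord_zero {k K : Type} [Field k] [Field K] [Algebra k K] (P : Place k K) {f : K}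
    (hf : f ≠ 0) (h : P.ord f = 0) : f ∈ P.O := by
  rw [Place.mem_O, P.reg_iff hf, h]

theorem emb : S_EXTV → S_PROL → S_EMB := by
  intro hext hprol ℓ hℓ κ R M _ _ _ _ _ _ _ _ _ x B Y h E _ _ pts hroot X hX hXd
  have hℓ0 : ℓ ≠ 0 := hℓ.out.ne_zero
  haveI : CharZero R := charZero_of_injective_algebraMap (algebraMap κ R).injective
  haveI : NeZero ℓ := ⟨hℓ0⟩
  obtain ⟨i, hi⟩ := exists_hom h.rat hX
  -- the extension to the algebraic closure
  obtain ⟨J, hJ⟩ : ∃ J : M →+* AlgebraicClosure E,
      ∀ r : R, J (algebraMap R M r) = algebraMap E (AlgebraicClosure E) (i r) := by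
    letI : Algebra R (AlgebraicClosure E) :=
      ((algebraMap E (AlgebraicClosure E)).comp i.toRingHom).toAlgebra
    haveI := h.gal
    haveI : Algebra.IsAlgebraic R M := inferInstance
    let j : M →ₐ[R] AlgebraicClosure E := IsAlgClosed.lift
    exact ⟨j.toRingHom, fun r => j.commutes r⟩
  have hinj : Function.Injective (algebraMap E (AlgebraicClosure E)) :=
    (algebraMap E (AlgebraicClosure E)).injective
  have hJκ : ∀ c : κ, J (algebraMap κ M c) =
      algebraMap E (AlgebraicClosure E) (algebraMap κ E c) := by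
    intro c
    rw [IsScalarTower.algebraMap_apply κ R M, hJ, i.commutes]
  have hJx : J (algebraMap R M x) = algebraMap E (AlgebraicClosure E) X := by rw [hJ, hi]
  -- roots of unity
  obtain ⟨ζ, hζ⟩ : ∃ ζ : κ, IsPrimitiveRoot ζ ℓ := by
    haveI : NeZero (ℓ : κ) := ⟨by exact_mod_cast hℓ0⟩
    exact HasEnoughRootsOfUnity.exists_primitiveRoot κ ℓ
  have hζR : ∃ ζ : R, IsPrimitiveRoot ζ ℓ :=
    ⟨algebraMap κ R ζ, hζ.map_of_injective (algebraMap κ R).injective⟩
  have hζE : IsPrimitiveRoot (algebraMap E (AlgebraicClosure E) (algebraMap κ E ζ)) ℓ :=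
    (hζ.map_of_injective (algebraMap κ E).injective).map_of_injective hinj
  have hrt : ∀ (w : AlgebraicClosure E) (G : E), G ≠ 0 →
      w ^ ℓ = algebraMap E (AlgebraicClosure E) (G ^ ℓ) →
      ∃ g, algebraMap E (AlgebraicClosure E) g = w := by
    intro w G hG hw
    have hG' : algebraMap E (AlgebraicClosure E) G ≠ 0 := by
      rw [Ne, map_eq_zero_iff _ hinj]
      exact hG
    have h1 : (w / algebraMap E (AlgebraicClosure E) G) ^ ℓ = 1 := by
      rw [div_pow, hw, map_pow, div_self (pow_ne_zero _ hG')]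
    obtain ⟨a, -, ha⟩ := hζE.eq_pow_of_pow_eq_one h1
    refine ⟨algebraMap κ E ζ ^ a * G, ?_⟩
    rw [map_mul, map_pow, ha, div_mul_cancel₀ _ hG']
  -- the intermediate field
  obtain ⟨S, hS⟩ : ∃ S : IntermediateField R M, ∀ z, z ∈ S ↔
      ∃ g, algebraMap E (AlgebraicClosure E) g = J z :=
    ⟨((algebraMap E (AlgebraicClosure E)).fieldRange.comap J).toIntermediateField
      (fun r => ⟨i r, (hJ r).symm⟩), fun z => Iff.rfl⟩
  have hYS : Y ∈ S := by
    rw [hS]
    have hne : ∏ e ∈ B, (X - algebraMap κ E e) ≠ 0 := by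
      rw [Finset.prod_ne_zero_iff]
      intro e _ h0
      rw [sub_eq_zero] at h0
      rw [h0] at hX
      exact hX (isAlgebraic_algebraMap e)
    obtain ⟨G, hG⟩ := hroot _ hne hXd
    have hG0 : G ≠ 0 := by
      rintro rfl
      rw [zero_pow hℓ0] at hG
      exact hne hG.symm
    refine hrt _ G hG0 ?_
    rw [← map_pow, h.eqn, map_prod, hG, map_prod]
    refine Finset.prod_congr rfl fun e _ => ?_
    rw [map_sub, map_sub, hJx, hJκ]
  have hκS : ∀ c : κ, algebraMap κ M c ∈ S := fun c => (hS _).2 ⟨algebraMap κ E c, (hJκ c).symm⟩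
  have hxS : algebraMap R M x ∈ S := S.algebraMap_mem x
  -- the map from `S` to `E`
  obtain ⟨e, he⟩ : ∃ e : S →+* E, ∀ z : S,
      algebraMap E (AlgebraicClosure E) (e z) = J (z : M) := by
    have hex : ∀ z : S, ∃ g, algebraMap E (AlgebraicClosure E) g = J (z : M) :=
      fun z => (hS _).1 z.2
    choose e0 he0 using hex
    refine ⟨{ toFun := e0, map_one' := ?_, map_mul' := ?_, map_zero' := ?_, map_add' := ?_ }, he0⟩
    · apply hinj
      rw [he0, map_one]
      exact map_one J
    · intro a b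
      apply hinj
      rw [he0, map_mul, he0, he0]
      exact map_mul J _ _
    · apply hinj
      rw [he0, map_zero]
      exact map_zero J
    · intro a b
      apply hinj
      rw [he0, map_add, he0, he0]
      exact map_add J _ _
  have heinj : Function.Injective e := e.injective
  have heκ : ∀ (c : κ) (hc : algebraMap κ M c ∈ S), e ⟨algebraMap κ M c, hc⟩ = algebraMap κ E c := by
    intro c hc
    apply hinj
    rw [he]
    exact hJκ c
  have hcl : ∀ g : M, g ^ ℓ ∈ S → g ∈ S := by
    intro g hg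
    by_cases hg0 : g = 0
    · rw [hg0]
      exact zero_mem S
    obtain ⟨z, hz⟩ : ∃ z : S, z = ⟨g ^ ℓ, hg⟩ := ⟨_, rfl⟩
    have hz0 : z ≠ 0 := by
      intro h0
      have h1 := congrArg (fun w : S => (w : M)) h0
      simp only [hz] at h1
      exact pow_ne_zero ℓ hg0 h1
    have hez0 : e z ≠ 0 := by
      rw [Ne, map_eq_zero_iff _ heinj]
      exact hz0
    have hdvd : ∀ P ∈ pts, (ℓ : ℤ) ∣ P.ord (e z) := by
      intro P _
      by_cases hV : P.O.comap e = ⊤
      · have h1 : z ∈ P.O.comap e := by rw [hV]; trivial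
        have h2 : z⁻¹ ∈ P.O.comap e := by rw [hV]; trivial
        have h1' : e z ∈ P.O := h1
        have h2' : e z⁻¹ ∈ P.O := h2
        rw [map_inv₀] at h2'
        rw [ord_zero_of P hez0 h1' h2']
        exact dvd_zero _
      · obtain ⟨V, hVV⟩ := hext S M (P.O.comap e)
        have hmem : ∀ w : S, (w : M) ∈ V ↔ e w ∈ P.O := by
          intro w
          have h1 : w ∈ V.comap (algebraMap S M) ↔ w ∈ P.O.comap e := by rw [hVV]
          exact h1
        have hVκ : ∀ c : κ, algebraMap κ M c ∈ V := by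
          intro c
          have h1 := (hmem ⟨algebraMap κ M c, hκS c⟩).2
          apply h1
          rw [heκ]
          exact P.reg_const c
        have hVt : V ≠ ⊤ := by
          intro ht
          apply hV
          rw [eq_top_iff]
          intro w _
          have h1 : (w : M) ∈ V := by rw [ht]; trivial
          exact (hmem w).1 h1
        obtain ⟨W, hW, hcase⟩ := h.loc V hVκ hVt
        obtain ⟨π, hπ⟩ : ∃ π : S, W.ord (π : M) = 1 := by
          rcases hcase with ⟨_, _, _, h1⟩ | ⟨a, _, h1⟩ | h1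
          · exact ⟨⟨Y, hYS⟩, h1⟩
          · exact ⟨⟨algebraMap R M x - algebraMap κ M a, sub_mem hxS (hκS a)⟩, h1⟩
          · refine ⟨⟨(algebraMap R M x)⁻¹, inv_mem hxS⟩, ?_⟩
            change W.ord (algebraMap R M x)⁻¹ = 1
            rw [W.ord_inv, h1]
            norm_num
        have hπ0 : (π : M) ≠ 0 := by
          intro h0
          rw [h0, W.ord_zero] at hπ
          exact absurd hπ (by norm_num)
        have hπ0' : π ≠ 0 := by
          intro h0
          apply hπ0
          rw [h0]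
          rfl
        have heπ : e π ≠ 0 := by
          rw [Ne, map_eq_zero_iff _ heinj]
          exact hπ0'
        obtain ⟨n, hn⟩ : ∃ n : ℤ, n = W.ord g := ⟨_, rfl⟩
        have hq0 : (g ^ ℓ / (π : M) ^ ((ℓ : ℤ) * n)) ≠ 0 :=
          div_ne_zero (pow_ne_zero _ hg0) (zpow_ne_zero _ hπ0)
        have hord : W.ord (g ^ ℓ / (π : M) ^ ((ℓ : ℤ) * n)) = 0 := by
          rw [W.ord_div (pow_ne_zero _ hg0) (zpow_ne_zero _ hπ0), W.ord_pow, W.ord_zpow, hπ, ← hn]
          ring
        have hq : g ^ ℓ / (π : M) ^ ((ℓ : ℤ) * n) = ((z / π ^ ((ℓ : ℤ) * n) : S) : M) := by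
          rw [hz]
          push_cast
          rfl
        have hq1 : ((z / π ^ ((ℓ : ℤ) * n) : S) : M) ∈ V := by
          rw [← hq, ← hW]
          exact mem_of_ord_zero W hq0 hord
        have hq2 : (((z / π ^ ((ℓ : ℤ) * n))⁻¹ : S) : M) ∈ V := by
          have h1 : (((z / π ^ ((ℓ : ℤ) * n))⁻¹ : S) : M) = (g ^ ℓ / (π : M) ^ ((ℓ : ℤ) * n))⁻¹ := by
            rw [hq]
            push_cast
            rfl
          rw [h1, ← hW]
          refine mem_of_ord_zero W (inv_ne_zero hq0) ?_
          rw [W.ord_inv, hord, neg_zero]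
        have h1 := (hmem _).1 hq1
        have h2 := (hmem _).1 hq2
        rw [map_inv₀] at h2
        have h3 : e (z / π ^ ((ℓ : ℤ) * n)) ≠ 0 := by
          rw [map_div₀, map_zpow₀]
          exact div_ne_zero hez0 (zpow_ne_zero _ heπ)
        have h4 := ord_zero_of P h3 h1 h2
        rw [map_div₀, map_zpow₀, P.ord_div hez0 (zpow_ne_zero _ heπ), P.ord_zpow, sub_eq_zero] at h4
        rw [h4, mul_assoc]
        exact dvd_mul_right _ _
    obtain ⟨G, hG⟩ := hroot _ hez0 hdvd
    have hG0 : G ≠ 0 := by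
      rintro rfl
      rw [zero_pow hℓ0] at hG
      exact hez0 hG.symm
    rw [hS]
    refine hrt _ G hG0 ?_
    rw [hG, he, hz, ← map_pow]
  have htop : S = ⊤ := hprol ℓ R M hζR h.gal h.pow S hcl
  have hall : ∀ z : M, z ∈ S := fun z => by rw [htop]; trivial
  refine ⟨⟨⟨⟨⟨fun z => e ⟨z, hall z⟩, ?_⟩, ?_⟩, ?_, ?_⟩, ?_⟩, ?_⟩
  · exact map_one e
  · intro a b
    exact map_mul e ⟨a, hall a⟩ ⟨b, hall b⟩
  · exact map_zero e
  · intro a b
    exact map_add e ⟨a, hall a⟩ ⟨b, hall b⟩
  · intro c
    exact heκ c _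
  · change e ⟨algebraMap R M x, hall _⟩ = X
    apply hinj
    rw [he]
    exact hJx

end Pool.Agent.Y275.PS
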